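import Pool.Agent.Y164.NZ.Stm2

/-! # Good primes of a number field -/

set_option autoImplicit false

open Polynomial IsDedekindDomain NumberField

namespace Pool.Agent.Y665.NZ

section

variable {k : Type} [Field k] [NumberField k]

lemma exists_over (k : Type) [Field k] [NumberField k] {p : ℕ} (hp : p.Prime) :
    ∃ P : HeightOneSpectrum (𝓞 k), (p : 𝓞 k) ∈ P.asIdeal := by
  have hnu : ¬ IsUnit (p : 𝓞 k) := by
    intro h
    have h1 := h.map (Algebra.norm ℤ)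
    have h2 : Algebra.norm ℤ (p : 𝓞 k) = (p : ℤ) ^ Module.finrank ℤ (𝓞 k) := by
      have h5 := Algebra.norm_algebraMap (S := 𝓞 k) (p : ℤ)
      rw [← h5]
      congr 1
      simp
    rw [h2, isUnit_pow_iff (by rw [RingOfIntegers.rank]; exact Module.finrank_pos.ne')] at h1
    exact (Nat.prime_iff_prime_int.1 hp).not_isUnit h1
  obtain ⟨M, hM, hpM⟩ := exists_max_ideal_of_mem_nonunits (mem_nonunits_iff.2 hnu)
  refine ⟨⟨M, hM.isPrime, fun h0 => ?_⟩, hpM⟩
  rw [h0, Ideal.mem_bot] at hpM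
  exact hp.ne_zero (by exact_mod_cast hpM)

lemma inf_primes (k : Type) [Field k] [NumberField k] : Infinite (HeightOneSpectrum (𝓞 k)) := by
  choose f hf using fun p : Nat.Primes => exists_over k p.2
  refine Infinite.of_injective f fun p q hpq => ?_
  by_contra hne
  have hne' : (p : ℕ) ≠ q := fun h => hne (Subtype.ext h)
  have hc : Nat.Coprime p q := (Nat.coprime_primes p.2 q.2).2 hne'
  have h1 := hf p
  have h2 := hf q
  rw [← hpq] at h2
  have h3 : (1 : 𝓞 k) ∈ (f p).asIdeal := by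
    have hb := Nat.gcd_eq_gcd_ab (p : ℕ) (q : ℕ)
    rw [hc] at hb
    have hb' : (1 : 𝓞 k) = (((p : ℕ) : ℤ) : 𝓞 k) * ((Nat.gcdA p q : ℤ) : 𝓞 k) +
        (((q : ℕ) : ℤ) : 𝓞 k) * ((Nat.gcdB p q : ℤ) : 𝓞 k) := by
      rw [← Int.cast_mul, ← Int.cast_mul, ← Int.cast_add, ← hb]
      simp
    rw [hb']
    refine add_mem (Ideal.mul_mem_right _ _ ?_) (Ideal.mul_mem_right _ _ ?_)
    · rw [Int.cast_natCast]; exact h1
    · rw [Int.cast_natCast]; exact h2
  exact (f p).isPrime.ne_top ((Ideal.eq_top_iff_one _).2 h3)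

lemma fin_mem {c : 𝓞 k} (hc : c ≠ 0) :
    {P : HeightOneSpectrum (𝓞 k) | c ∈ P.asIdeal}.Finite := by
  have h := Ideal.finite_factors (I := Ideal.span {c}) (by
    rw [Ne, Ideal.zero_eq_bot, Ideal.span_singleton_eq_bot]; exact hc)
  exact h.subset fun P hP => Ideal.dvd_span_singleton.2 hP

lemma fin_norm (X : ℕ) :
    {P : HeightOneSpectrum (𝓞 k) | Ideal.absNorm P.asIdeal ≤ X}.Finite := by
  have h := Ideal.finite_setOfPred_absNorm_le (S := 𝓞 k) X
  refine Set.Finite.of_finite_image (f := fun P : HeightOneSpectrum (𝓞 k) => P.asIdeal)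
    (h.subset ?_) ?_
  · rintro _ ⟨P, hP, rfl⟩
    exact hP
  · intro P _ Q _ hPQ
    exact HeightOneSpectrum.ext hPQ

/-- the Bezout identity over the ring of integers -/
lemma bezout {f : (𝓞 k)[X]} (hf : Squarefree (f.map (algebraMap (𝓞 k) k))) :
    ∃ (c : 𝓞 k) (A B : (𝓞 k)[X]), c ≠ 0 ∧ A * f + B * derivative f = C c := by
  have hs : (f.map (algebraMap (𝓞 k) k)).Separable := PerfectField.separable_iff_squarefree.2 hf
  obtain ⟨A, B, hAB⟩ := hs
  obtain ⟨a, ham, ha⟩ := IsLocalization.integerNormalization_spec (nonZeroDivisors (𝓞 k)) A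
  obtain ⟨b, hbm, hb⟩ := IsLocalization.integerNormalization_spec (nonZeroDivisors (𝓞 k)) B
  have ha0 : (a : 𝓞 k) ≠ 0 := nonZeroDivisors.ne_zero ham
  have hb0 : (b : 𝓞 k) ≠ 0 := nonZeroDivisors.ne_zero hbm
  set A0 := IsLocalization.integerNormalization (nonZeroDivisors (𝓞 k)) A
  set B0 := IsLocalization.integerNormalization (nonZeroDivisors (𝓞 k)) B
  refine ⟨(a : 𝓞 k) * b, C (b : 𝓞 k) * A0, C (a : 𝓞 k) * B0, mul_ne_zero ha0 hb0, ?_⟩
  apply Polynomial.map_injective _ (RingOfIntegers.coe_injective (K := k))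
  have ha' : A0.map (algebraMap (𝓞 k) k) = C (algebraMap (𝓞 k) k a) * A := by
    rw [ha, ← algebraMap_smul k (a : 𝓞 k) A, smul_eq_C_mul]
  have hb' : B0.map (algebraMap (𝓞 k) k) = C (algebraMap (𝓞 k) k b) * B := by
    rw [hb, ← algebraMap_smul k (b : 𝓞 k) B, smul_eq_C_mul]
  have h1 : (C (b : 𝓞 k) * A0 * f + C (a : 𝓞 k) * B0 * derivative f).map (algebraMap (𝓞 k) k) =
      (C ((a : 𝓞 k) * b)).map (algebraMap (𝓞 k) k) := by
    rw [Polynomial.map_add, Polynomial.map_mul, Polynomial.map_mul, Polynomial.map_mul,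
      Polynomial.map_mul, ha', hb', ← derivative_map, Polynomial.map_C, Polynomial.map_C,
      Polynomial.map_C, map_mul, C_mul]
    linear_combination (C (algebraMap (𝓞 k) k a) * C (algebraMap (𝓞 k) k b)) * hAB
  exact h1

lemma sqf_red {f : (𝓞 k)[X]} {c : 𝓞 k} {A B : (𝓞 k)[X]} (h : A * f + B * derivative f = C c)
    (P : HeightOneSpectrum (𝓞 k)) (hc : c ∉ P.asIdeal) :
    Squarefree (f.map (Ideal.Quotient.mk P.asIdeal)) := by
  let _ := Ideal.Quotient.field P.asIdeal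
  have hc' : Ideal.Quotient.mk P.asIdeal c ≠ 0 := by
    rw [Ne, Ideal.Quotient.eq_zero_iff_mem]
    exact hc
  apply Polynomial.Separable.squarefree
  have h1 := congrArg (Polynomial.map (Ideal.Quotient.mk P.asIdeal)) h
  rw [Polynomial.map_add, Polynomial.map_mul, Polynomial.map_mul, ← derivative_map,
    Polynomial.map_C] at h1
  have h2 : C (Ideal.Quotient.mk P.asIdeal c)⁻¹ * C (Ideal.Quotient.mk P.asIdeal c) =
      (1 : (𝓞 k ⧸ P.asIdeal)[X]) := by
    rw [← C_mul, inv_mul_cancel₀ hc', C_1]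
  refine ⟨C (Ideal.Quotient.mk P.asIdeal c)⁻¹ * A.map (Ideal.Quotient.mk P.asIdeal),
    C (Ideal.Quotient.mk P.asIdeal c)⁻¹ * B.map (Ideal.Quotient.mk P.asIdeal), ?_⟩
  rw [← h2, ← h1]
  ring

lemma dvd_card {ℓ : ℕ} (hℓ : ℓ.Prime) {ζ : k} (hζ : IsPrimitiveRoot ζ ℓ)
    (P : HeightOneSpectrum (𝓞 k)) (hP : (ℓ : 𝓞 k) ∉ P.asIdeal)
    (hfin : Finite (𝓞 k ⧸ P.asIdeal)) : ℓ ∣ Nat.card (𝓞 k ⧸ P.asIdeal) - 1 := by
  let _ := Ideal.Quotient.field P.asIdeal
  have hint : IsIntegral ℤ ζ := hζ.isIntegral hℓ.pos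
  have hinj : Function.Injective (algebraMap (𝓞 k) k) := RingOfIntegers.coe_injective
  obtain ⟨z, hz⟩ : ∃ z : 𝓞 k, algebraMap (𝓞 k) k z = ζ := ⟨⟨ζ, hint⟩, rfl⟩
  have hz1 : z ^ ℓ = 1 := by
    apply hinj
    rw [map_pow, hz, hζ.pow_eq_one, map_one]
  have hsum : ∑ i ∈ Finset.range ℓ, z ^ i = 0 := by
    apply hinj
    rw [map_sum, map_zero]
    simp only [map_pow, hz]
    exact hζ.geom_sum_eq_zero hℓ.one_lt
  have hne : Ideal.Quotient.mk P.asIdeal z ≠ 1 := by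
    intro h1
    have h2 := congrArg (Ideal.Quotient.mk P.asIdeal) hsum
    rw [map_sum, map_zero] at h2
    simp only [map_pow, h1, one_pow, Finset.sum_const, Finset.card_range, nsmul_eq_mul,
      mul_one] at h2
    apply hP
    rw [← Ideal.Quotient.eq_zero_iff_mem, map_natCast]
    exact h2
  have hpow : (Ideal.Quotient.mk P.asIdeal z) ^ ℓ = 1 := by
    rw [← map_pow, hz1, map_one]
  have hu : IsUnit (Ideal.Quotient.mk P.asIdeal z) :=
    IsUnit.of_pow_eq_one hpow hℓ.ne_zero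
  obtain ⟨u, hu⟩ := hu
  have hord : orderOf u = ℓ := by
    have : Fact ℓ.Prime := ⟨hℓ⟩
    apply orderOf_eq_prime
    · apply Units.ext
      rw [Units.val_pow_eq_pow_val, hu, hpow, Units.val_one]
    · intro h
      apply hne
      rw [← hu, h, Units.val_one]
  rw [← Nat.card_units, ← hord]
  exact orderOf_dvd_natCard u

end

open Pool.Agent.Y164.NZ in
open scoped Classical in
theorem t : Pool.Agent.Y164.NZ.S_NF := by
  intro ℓ hℓ k _ _ ζ hζ n N hN b hb hsq X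
  have := inf_primes k
  obtain ⟨c, A, B, hc0, hAB⟩ := bezout hsq
  have hlc : ∀ i j, i ≠ j → (b i - b j).leadingCoeff ≠ 0 := by
    intro i j hij h0
    rw [leadingCoeff_eq_zero] at h0
    have := hb i j hij
    rw [h0, natDegree_zero] at this
    omega
  have hbad : ({P : HeightOneSpectrum (𝓞 k) | (2 : 𝓞 k) ∈ P.asIdeal} ∪
      {P : HeightOneSpectrum (𝓞 k) | (ℓ : 𝓞 k) ∈ P.asIdeal} ∪
      {P : HeightOneSpectrum (𝓞 k) | c ∈ P.asIdeal} ∪
      {P : HeightOneSpectrum (𝓞 k) | Ideal.absNorm P.asIdeal ≤ X} ∪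
      ⋃ x : Fin n × Fin n, {P : HeightOneSpectrum (𝓞 k) |
        x.1 ≠ x.2 ∧ (b x.1 - b x.2).leadingCoeff ∈ P.asIdeal}).Finite := by
    refine ((((fin_mem two_ne_zero).union (fin_mem (by exact_mod_cast hℓ.ne_zero))).union
      (fin_mem hc0)).union (fin_norm X)).union (Set.finite_iUnion fun x => ?_)
    by_cases hx : x.1 = x.2
    · refine Set.Finite.subset Set.finite_empty ?_
      rintro P ⟨h, -⟩
      exact absurd hx h
    · exact (fin_mem (hlc _ _ hx)).subset fun P hP => hP.2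
  refine hbad.infinite_compl.mono ?_
  intro P hP
  simp only [Set.mem_compl_iff, Set.mem_union, Set.mem_ofPred_eq, Set.mem_iUnion, not_or,
    not_exists, not_and] at hP
  obtain ⟨⟨⟨⟨h2, hl⟩, hc⟩, hX⟩, hij⟩ := hP
  have hfin : Finite (𝓞 k ⧸ P.asIdeal) := Ideal.finiteQuotientOfFreeOfNeBot P.asIdeal P.ne_bot
  refine ⟨hfin, ?_, h2, dvd_card hℓ hζ P hl hfin, fun i j h => hij (i, j) h, sqf_red hAB P hc⟩
  have e : Nat.card (𝓞 k ⧸ P.asIdeal) = Ideal.absNorm P.asIdeal := rfl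
  rw [e]
  omega

end Pool.Agent.Y665.NZ
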